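import Pool.Agent.R590.LsDense

/-!
# MP_f38093_lc: a Luzin set and a Sierpiński set give `ℵ₁`-dense sets that strongly avoid each other

Both kinds of set exist in the Sacks model (there the cofinality of the null ideal is `ℵ₁`) and in the
Miller model (there the Luzin and Sierpiński sets of the ground model are preserved).
-/

set_option autoImplicit false

namespace Pool.Agent.Results.MP_f38093_lc.LuzinSierpinskiPair

open Pool.Agent.R590.Ls

/-- if there are a Luzin set and a Sierpiński set then there are `ℵ₁`-dense subsets of the Cantor space
that strongly avoid each other -/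
theorem result (hL : ∃ L : Set Cantor, IsLuzin L) (hS : ∃ S : Set Cantor, IsSierpinski S) :
    ∃ X Y : Set Cantor, AlephOneDense X ∧ AlephOneDense Y ∧ StronglyAvoids X Y ∧
      StronglyAvoids Y X := by
  obtain ⟨L, hL⟩ := hL
  obtain ⟨S, hS⟩ := hS
  exact main hL hS

end Pool.Agent.Results.MP_f38093_lc.LuzinSierpinskiPair
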